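import Pool.Agent.Work.MP_dcf6a6_c1.Interface

/-! Block SURJ: the plane covers the trinomial surface. -/

set_option autoImplicit false

namespace Pool.C1.helper51

open MvPolynomial

theorem stmt_SURJ (hKERU : Stmt_KERU) (hINTG : Stmt_INTG) : Stmt_SURJ := by
  intro U g e κ x hg he hU hzero hκ hrel hx
  set φ : MvPolynomial (Fin 3) ℂ →ₐ[ℂ] MvPolynomial (Fin 2) ℂ := aeval U with hφ
  -- integrality
  have hint : φ.toRingHom.IsIntegral := by
    have h := hINTG (fun i => U (i.castSucc)) (fun i => e i.castSucc) (fun i => he _)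
      (fun i => hU _) (fun p h0 h1 => hzero 0 1 (by decide) p h0 h1)
    have e1 : (aeval (fun i : Fin 2 => U (i.castSucc)) :
        MvPolynomial (Fin 2) ℂ →ₐ[ℂ] MvPolynomial (Fin 2) ℂ).toRingHom =
        φ.toRingHom.comp (rename (Fin.castSucc : Fin 2 → Fin 3)).toRingHom := by
      have e2 : (aeval (fun i : Fin 2 => U (i.castSucc)) :
        MvPolynomial (Fin 2) ℂ →ₐ[ℂ] MvPolynomial (Fin 2) ℂ) =
        φ.comp (rename (Fin.castSucc : Fin 2 → Fin 3)) := by
        apply MvPolynomial.algHom_ext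
        intro i
        simp [hφ]
      rw [e2]
      rfl
    rw [e1] at h
    intro y
    obtain ⟨p, hp, hp2⟩ := h y
    refine ⟨p.map (rename (Fin.castSucc : Fin 2 → Fin 3)).toRingHom, hp.map _, ?_⟩
    rw [Polynomial.eval₂_map]
    exact hp2
  -- the maximal ideal of the point x
  set I : Ideal (MvPolynomial (Fin 3) ℂ) := RingHom.ker (eval x) with hI
  have hImax : I.IsMaximal := by
    apply RingHom.ker_isMaximal_of_surjective
    intro y
    exact ⟨C y, eval_C y⟩
  have hker : RingHom.ker φ.toRingHom ≤ I := by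
    intro G hG
    rw [hI, RingHom.mem_ker]
    exact hKERU U g e κ x hg he hU hzero hκ hrel hx G hG
  letI : Algebra (MvPolynomial (Fin 3) ℂ) (MvPolynomial (Fin 2) ℂ) := φ.toRingHom.toAlgebra
  haveI : Algebra.IsIntegral (MvPolynomial (Fin 3) ℂ) (MvPolynomial (Fin 2) ℂ) :=
    ⟨fun y => hint y⟩
  obtain ⟨Q, -, hQp, hQ⟩ := Ideal.exists_ideal_over_prime_of_isIntegral I
    (⊥ : Ideal (MvPolynomial (Fin 2) ℂ)) (by
      intro G hG
      exact hker hG)
  obtain ⟨M, hM, hQM⟩ := Ideal.exists_le_maximal Q hQp.ne_top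
  obtain ⟨p, hp⟩ := (MvPolynomial.isMaximal_iff_eq_vanishingIdeal_singleton (K := ℂ)).1 hM
  refine ⟨p, fun i => ?_⟩
  have h1 : (X i - C (x i) : MvPolynomial (Fin 3) ℂ) ∈ I := by
    rw [hI, RingHom.mem_ker]
    simp
  have h2 : φ (X i - C (x i)) ∈ Q := by
    rw [← hQ] at h1
    exact h1
  have h3 := hQM h2
  rw [hp, MvPolynomial.mem_vanishingIdeal_singleton_iff] at h3
  rw [map_sub, hφ, aeval_X] at h3
  simp only [map_sub, sub_eq_zero] at h3
  simpa using h3

end Pool.C1.helper51
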