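import Pool.Agent.Work.MP_dcf6a6_c1.Interface

/-! Block TRIPLE: regular solutions for all platonic triples. -/

set_option autoImplicit false

open Polynomial

namespace Pool.C1.helper51

theorem Tri.perm {a : Fin 3 → ℕ} {κ : Fin 3 → ℂ} (σ : Equiv.Perm (Fin 3))
    (h : Tri (a ∘ σ) (κ ∘ σ)) : Tri a κ := by
  obtain ⟨d, c, τ, hd, h1, h2, h3, h4, h5⟩ := h
  refine ⟨d, c ∘ σ.symm, τ ∘ σ.symm, hd, ?_, ?_, ?_, ?_, ?_⟩
  · intro i
    have := h1 (σ.symm i)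
    simpa using this
  · intro i
    exact h2 (σ.symm i)
  · intro i j hij
    exact h3 _ _ (fun h => hij (σ.symm.injective h))
  · rw [← Equiv.sum_comp σ]
    simpa using h4
  · intro P hP
    obtain ⟨s, hs1, hs2⟩ := h5 P hP
    refine ⟨s ∘ σ.symm, fun i => hs1 (σ.symm i), ?_⟩
    rw [← Equiv.sum_comp σ]
    simpa using hs2

theorem tri_of_kl (hKS : Stmt_KS) {a : Fin 3 → ℕ} {κ : Fin 3 → ℂ} (ha : ∀ i, 0 < a i)
    (hκ : ∀ i, κ i ≠ 0) (h : Kl a) : Tri a κ := by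
  obtain ⟨d, c, e, A, hc, hd, hs, he, hA, hcop, hsum⟩ := h
  have hr : ∀ i, ∃ r : ℂ, κ i * r ^ a i = e i := by
    intro i
    obtain ⟨r, hr⟩ := IsAlgClosed.exists_pow_nat_eq (e i / κ i) (ha i)
    refine ⟨r, ?_⟩
    rw [hr, mul_div_cancel₀ _ (hκ i)]
  choose r hr using hr
  have hr0 : ∀ i, r i ≠ 0 := by
    intro i h0
    have := hr i
    rw [h0, zero_pow (ha i).ne', mul_zero] at this
    exact he i this.symm
  have hu : ∀ i, IsUnit (C (r i)) := fun i => isUnit_C.mpr (isUnit_iff_ne_zero.mpr (hr0 i))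
  have h1 : ∀ i, C (r i) * A i ≠ 0 ∧ (C (r i) * A i).natDegree = c i := by
    intro i
    refine ⟨mul_ne_zero (C_ne_zero.mpr (hr0 i)) (hA i).1, ?_⟩
    rw [natDegree_C_mul (hr0 i)]
    exact (hA i).2
  have h2 : ∀ i j, i ≠ j → IsCoprime (C (r i) * A i) (C (r j) * A j) := by
    intro i j hij
    exact (isCoprime_mul_unit_left_left (hu i) _ _).2
      ((isCoprime_mul_unit_left_right (hu j) _ _).2 (hcop i j hij))
  have h3 : ∑ i, C (κ i) * (C (r i) * A i) ^ a i = 0 := by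
    rw [← hsum]
    refine Finset.sum_congr rfl fun i _ => ?_
    rw [mul_pow, ← C_pow, ← mul_assoc, ← C_mul, hr i]
  refine ⟨d, c, fun i => C (r i) * A i, ?_, hd, h1, h2, h3, ?_⟩
  · rw [← hd 0]
    exact Nat.mul_pos (ha 0) (hc 0)
  · exact hKS a c d κ _ hc hd hs hκ h1 h2 h3

theorem vec_eq {b : Fin 3 → ℕ} {x y z : ℕ} (h0 : b 0 = x) (h1 : b 1 = y) (h2 : b 2 = z) :
    b = ![x, y, z] := by
  ext i
  fin_cases i
  · simpa using h0
  · simpa using h1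
  · simpa using h2

theorem classify {b : Fin 3 → ℕ} (hb : ∀ i, 0 < b i) (hmono : Monotone b)
    (hs : ∑ i, (1 - 1 / (b i : ℚ)) < 2) :
    b 0 = 1 ∨ (b 0 = 2 ∧ b 1 = 2) ∨ (b 0 = 2 ∧ b 1 = 3 ∧ (b 2 = 3 ∨ b 2 = 4 ∨ b 2 = 5)) := by
  have h01 : b 0 ≤ b 1 := hmono (by decide)
  have h12 : b 1 ≤ b 2 := hmono (by decide)
  rw [Fin.sum_univ_three] at hs
  have p0 := hb 0
  have p1 := hb 1
  have p2 := hb 2
  generalize b 0 = x at *
  generalize b 1 = y at *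
  generalize b 2 = z at *
  have q0 : (0 : ℚ) < x := by exact_mod_cast p0
  have q1 : (0 : ℚ) < y := by exact_mod_cast p1
  have q2 : (0 : ℚ) < z := by exact_mod_cast p2
  by_cases hx3 : 3 ≤ x
  · exfalso
    have r0 : (1 : ℚ) / x ≤ 1 / 3 := one_div_le_one_div_of_le (by norm_num) (by exact_mod_cast hx3)
    have r1 : (1 : ℚ) / y ≤ 1 / 3 :=
      one_div_le_one_div_of_le (by norm_num) (by exact_mod_cast hx3.trans h01)
    have r2 : (1 : ℚ) / z ≤ 1 / 3 :=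
      one_div_le_one_div_of_le (by norm_num) (by exact_mod_cast (hx3.trans h01).trans h12)
    linarith
  have hx : x = 1 ∨ x = 2 := by omega
  rcases hx with rfl | rfl
  · exact Or.inl rfl
  right
  by_cases hy4 : 4 ≤ y
  · exfalso
    have r1 : (1 : ℚ) / y ≤ 1 / 4 :=
      one_div_le_one_div_of_le (by norm_num) (by exact_mod_cast hy4)
    have r2 : (1 : ℚ) / z ≤ 1 / 4 :=
      one_div_le_one_div_of_le (by norm_num) (by exact_mod_cast hy4.trans h12)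
    push_cast at hs
    linarith
  have hy : y = 2 ∨ y = 3 := by omega
  rcases hy with rfl | rfl
  · exact Or.inl ⟨rfl, rfl⟩
  right
  refine ⟨rfl, rfl, ?_⟩
  by_cases hz6 : 6 ≤ z
  · exfalso
    have r2 : (1 : ℚ) / z ≤ 1 / 6 :=
      one_div_le_one_div_of_le (by norm_num) (by exact_mod_cast hz6)
    push_cast at hs
    linarith
  omega

theorem stmt_TRIPLE (hKS : Stmt_KS) (hTONE : Stmt_TONE) (hKDIH : Stmt_KDIH) (hKTET : Stmt_KTET)
    (hKOCT : Stmt_KOCT) (hKICO : Stmt_KICO) : Stmt_TRIPLE := by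
  intro a κ ha hs hκ
  have hmono : Monotone (a ∘ Tuple.sort a) := Tuple.monotone_sort a
  refine Tri.perm (Tuple.sort a) ?_
  set σ := Tuple.sort a
  have hb : ∀ i, 0 < (a ∘ σ) i := fun i => ha _
  have hκ' : ∀ i, (κ ∘ σ) i ≠ 0 := fun i => hκ _
  have hs' : ∑ i, (1 - 1 / (((a ∘ σ) i : ℕ) : ℚ)) < 2 := by
    have e := Equiv.sum_comp σ (fun i => (1 - 1 / (a i : ℚ)))
    rw [← e] at hs
    exact hs
  rcases classify hb hmono hs' with h0 | ⟨h0, h1⟩ | ⟨h0, h1, h2⟩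
  · rw [vec_eq h0 rfl rfl]
    exact hTONE _ _ _ (hb 1) (hb 2) hκ'
  · have h2 : 2 ≤ (a ∘ σ) 2 := h1.symm.le.trans (hmono (by decide))
    have e := vec_eq h0 h1 (rfl : (a ∘ σ) 2 = (a ∘ σ) 2)
    refine tri_of_kl hKS hb hκ' ?_
    rw [e]
    exact hKDIH _ h2
  · refine tri_of_kl hKS hb hκ' ?_
    rcases h2 with h2 | h2 | h2
    · rw [vec_eq h0 h1 h2]
      exact hKTET
    · rw [vec_eq h0 h1 h2]
      exact hKOCT
    · rw [vec_eq h0 h1 h2]
      exact hKICO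

end Pool.C1.helper51
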